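import Pool.Agent.Lib.MP_603301_co.ExchZ

set_option autoImplicit false

open Finset Pool.Agent.Lib.MP_603301_co RealInnerProductSpace

namespace Pool.Agent.Results.MP_603301_co.LatticeBalls

/-- **No gaps above the sections of symmetric lattices.**
(1) Let `Λ` be a lattice in `ℝ^k`, `k ≥ 2`: a subgroup with finitely many elements in every ball, and
every point of `ℝ^k` has distance less than `μ` from it. Let `0 ≤ c < 1`, and suppose that for every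
`v ∈ Λ` there is a linear isometry `g` with `g Λ = Λ` and `|⟪v, g v⟫| ≤ c ‖v‖ ^ 2`. If the ball of
radius `r` contains at least `n` points of `Λ`, then every integer from the number of distances
determined by the points of `Λ` in the ball of radius `r + 60 μ / (1 - c)` to `n (n - 1) / 2` is the
number of distances of some `n` points.
(2) The lattice `ℤ^k`: for all `k, n ≥ 2` every integer from the number of the sums of `k` squares in
`[1, 33124 k n^(2/k)]` to `n (n - 1) / 2` is the number of distances of some `n` points of `ℝ^k`. -/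
theorem result :
    (∀ (k n : ℕ), 2 ≤ k → 2 ≤ n → ∀ Λ : AddSubgroup (EuclideanSpace ℝ (Fin k)),
      (∀ r : ℝ, {v | v ∈ Λ ∧ ‖v‖ ≤ r}.Finite) → ∀ μ c : ℝ,
      (∀ x : EuclideanSpace ℝ (Fin k), ∃ v ∈ Λ, dist x v < μ) → 0 ≤ c → c < 1 →
      (∀ v ∈ Λ, ∃ g : EuclideanSpace ℝ (Fin k) ≃ₗᵢ[ℝ] EuclideanSpace ℝ (Fin k),
        (∀ w, g w ∈ Λ ↔ w ∈ Λ) ∧ |⟪v, g v⟫| ≤ c * ‖v‖ ^ 2) →
      ∀ r : ℝ, n ≤ {v | v ∈ Λ ∧ ‖v‖ ≤ r}.ncard → ∀ d : ℕ,
      {t : ℝ | ∃ x ∈ Λ, ∃ y ∈ Λ, x ≠ y ∧ ‖x‖ ≤ r + 60 * μ / (1 - c) ∧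
        ‖y‖ ≤ r + 60 * μ / (1 - c) ∧ dist x y = t}.ncard ≤ d →
      d ≤ n.choose 2 → d ∈ valueSet k n) ∧
    ∀ k n : ℕ, 2 ≤ k → 2 ≤ n → ∀ d : ℕ,
      {m : ℕ | 1 ≤ m ∧ (m : ℝ) ≤ 33124 * k * (n : ℝ) ^ ((2 : ℝ) / k) ∧
        ∃ a : Fin k → ℤ, (m : ℤ) = ∑ i, a i ^ 2}.ncard ≤ d →
      d ≤ n.choose 2 → d ∈ valueSet k n :=
  ⟨fun k n hk hn Λ hfin μ c hμ hc0 hc hsym r hr d hd hd2 =>
    ExchZ.balls k n hk hn Λ hfin μ c hμ hc0 hc hsym r hr d hd hd2,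
    fun k n hk hn d hd hdn => ExchZ.cubic k n hk hn d hd hdn⟩

end Pool.Agent.Results.MP_603301_co.LatticeBalls
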