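import Pool.Agent.Lib.MP_603301_co.Upper

set_option autoImplicit false

open Finset Pool.Agent.Lib.MP_603301_co

namespace Pool.Agent.Results.MP_603301_co.LineCase

/-- **The case `k = 1`.** For every `n ≥ 2` the numbers of distinct distances determined by `n`
distinct points of the line are exactly the integers from `n - 1` to `n (n - 1) / 2`. -/
theorem result (n : ℕ) (hn : 2 ≤ n) : valueSet 1 n = Set.Icc (n - 1) (n.choose 2) := by
  classical
  ext d
  rw [Set.mem_Icc]
  constructor
  · intro hd
    refine ⟨?_, valueSet_le hd⟩
    rw [mem_valueSet_iff] at hd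
    obtain ⟨S, hS, rfl⟩ := hd
    have hne : S.Nonempty := by rw [← Finset.card_pos]; omega
    obtain ⟨x, hx, hmin⟩ := Finset.exists_min_image S (fun y => y 0) hne
    have hsub : (S.erase x).image (fun y => dist x y) ⊆ dset S := by
      intro r hr
      rw [Finset.mem_image] at hr
      obtain ⟨y, hy, rfl⟩ := hr
      rw [Finset.mem_erase] at hy
      rw [mem_dset]
      exact ⟨x, hx, y, hy.2, hy.1.symm, rfl⟩
    have hdist : ∀ y ∈ S, dist x y = y 0 - x 0 := by
      intro y hy
      rw [EuclideanSpace.dist_eq]
      simp only [Finset.univ_unique, Fin.default_eq_zero, Finset.sum_singleton]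
      rw [Real.sqrt_sq dist_nonneg, dist_comm, Real.dist_eq, abs_of_nonneg]
      linarith [hmin y hy]
    have hinj : Set.InjOn (fun y => dist x y) (S.erase x : Finset _) := by
      intro y hy z hz h
      have hy' := Finset.mem_of_mem_erase (Finset.mem_coe.mp hy)
      have hz' := Finset.mem_of_mem_erase (Finset.mem_coe.mp hz)
      simp only at h
      rw [hdist y hy', hdist z hz'] at h
      ext i
      have hi : i = 0 := Subsingleton.elim _ _
      rw [hi]
      linarith
    calc n - 1 = (S.erase x).card := by rw [Finset.card_erase_of_mem hx, hS]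
      _ = ((S.erase x).image (fun y => dist x y)).card := (Finset.card_image_of_injOn hinj).symm
      _ ≤ (dset S).card := Finset.card_le_card hsub
  · rintro ⟨h1, h2⟩
    rw [mem_valueSet_iff]
    obtain ⟨S, hS1, hS2⟩ := exists_int_set n (by omega) d h1 h2
    obtain ⟨f, hf⟩ := line_isometry 1 le_rfl
    refine ⟨S.image f, ?_, ?_⟩
    · rw [Finset.card_image_of_injective _ hf.injective, hS1]
    · rw [dset_image_isometry f hf, hS2]

end Pool.Agent.Results.MP_603301_co.LineCase
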