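import Pool.Agent.Lib.MP_603301_co.Upper

set_option autoImplicit false

open Finset Pool.Agent.Lib.MP_603301_co

namespace Pool.Agent.Results.MP_603301_co.Nested

/-- **Threshold structure.** For `k, n ≥ 2`, an integer `d` is the number of distinct distances
of some `n` points of `ℝ^k` if and only if `d ≤ n (n - 1) / 2` and `d ≥ ⌊n / 2⌋` or some set of at
least `n` points of `ℝ^k` determines exactly `d` distances. -/
theorem result (k n : ℕ) (hk : 2 ≤ k) (hn : 2 ≤ n) :
    valueSet k n = {d | d ≤ n.choose 2 ∧ (n / 2 ≤ d ∨ ∃ m, n ≤ m ∧ d ∈ valueSet k m)} := by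
  ext d
  constructor
  · intro hd
    exact ⟨valueSet_le hd, Or.inr ⟨n, le_rfl, hd⟩⟩
  · rintro ⟨h1, h2 | ⟨m, hnm, hm⟩⟩
    · exact upper_range k n d hk hn (by omega) h1
    · exact valueSet_down hk hn hnm hm h1

end Pool.Agent.Results.MP_603301_co.Nested
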