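import Pool.Agent.Lib.MP_603301_co.Sharp
import Pool.Agent.Lib.MP_603301_co.UniL
import Pool.Agent.Lib.MP_603301_co.SumSq

set_option autoImplicit false

open Finset Pool.Agent.Lib.MP_603301_co

namespace Pool.Agent.Results.MP_603301_co.UniformWindow

private lemma mem_of_finset {k n d : ℕ} (hk : 2 ≤ k) (hn : 2 ≤ n) (hd : d ≤ n.choose 2)
    (h : 2 * d + 1 < n → ∃ S : Finset (EuclideanSpace ℝ (Fin k)), n ≤ S.card ∧ (dset S).card = d) :
    d ∈ valueSet k n := by
  by_cases hcase : n ≤ 2 * d + 1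
  · exact upper_range k n d hk hn hcase hd
  · obtain ⟨S, hS1, hS2⟩ := h (by omega)
    refine valueSet_down hk hn hS1 ?_ hd
    rw [mem_valueSet_iff]
    exact ⟨S, rfl, hS2⟩

/-- the case of high dimension -/
private lemma case_a {k n g d : ℕ} (hg : 1 ≤ g) (hk : 10 * g ≤ k) (hn : n ≤ (k + g).choose g)
    (hgd : g < d)
    (hd : (g : ℝ) * (g + 2) ≤ ((d : ℝ) - g) * (((k : ℝ) - 1 - g) * Real.log ((k : ℝ) / (3 * g)))) :
    ∃ S : Finset (EuclideanSpace ℝ (Fin k)), n ≤ S.card ∧ (dset S).card = d := by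
  classical
  obtain ⟨e, he1, he2, he3, he4⟩ : ∃ e : ℕ, 1 ≤ e ∧ e ≤ g ∧ g + e ≤ d ∧
      ((g : ℝ) * (g + 2) ≤ e * (((k : ℝ) - 1 - g) * Real.log ((k : ℝ) / (3 * g))) ∨ e = g) := by
    by_cases h : d - g ≤ g
    · refine ⟨d - g, by omega, h, by omega, Or.inl ?_⟩
      rw [Nat.cast_sub hgd.le]
      exact hd
    · exact ⟨g, hg, le_rfl, by omega, Or.inr rfl⟩
  have hn' : n ≤ (k - 2).choose (g + e) := hn.trans (choose_case_log k g e hg hk he2 he4)
  rcases he3.lt_or_eq with hlt | heq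
  · obtain ⟨S, hS1, hS2⟩ := johnson_arc k (g + e) (d - (g + e + 1)) (by omega) (by omega)
    exact ⟨S, hn'.trans hS1, by rw [hS2]; omega⟩
  · refine ⟨(JS Finset.univ (g + e)).image emb, ?_, ?_⟩
    · rw [Finset.card_image_of_injective _ emb_injective, card_JS, Finset.card_univ,
        Fintype.card_fin]
      exact hn'.trans (Nat.choose_le_choose _ (by omega))
    · rw [card_dset_emb, card_sset_JS, heq]
      rw [Finset.card_univ, Fintype.card_fin]
      omega

/-- the case of low dimension, in terms of the minimum -/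
private lemma case_b {k n g d : ℕ} (hk : 2 ≤ k) (hkg : k ≤ 10 * g) (hn : n ≤ (k + g).choose g)
    (hd : 900 * (4 * 200 ^ 4 * 17 ^ 4) * g ^ 2 ≤ d * k) (hdn : 2 * d + 1 < n) :
    ∃ S : Finset (EuclideanSpace ℝ (Fin k)), n ≤ S.card ∧ (dset S).card = d := by
  set m : ℕ := 30 * g / k with hm
  have hk0 : 0 < k := by omega
  have hm1 : 1 ≤ m := by
    rw [hm, Nat.one_le_div_iff hk0]
    omega
  have hmk : m * k ≤ 30 * g := Nat.div_mul_le_self _ _
  have hmk2 : 30 * g ≤ (m + 1) * k := by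
    have := Nat.lt_div_mul_add (a := 30 * g) hk0
    rw [← hm] at this
    calc 30 * g ≤ m * k + k := this.le
      _ = (m + 1) * k := by ring
  have h1 : n ≤ (m + 1) ^ k := hn.trans (choose_case_b k g m (by omega) hkg hmk2)
  refine uniform_lattice k n m d hk hm1 h1 ((card_repF_le_self _ _).trans ?_) hdn
  have h2 : (m * k) ^ 2 ≤ (30 * g) ^ 2 := Nat.pow_le_pow_left hmk 2
  have h3 : (4 * 200 ^ 4 * 17 ^ 4 * k * m ^ 2) * k ≤ d * k := by
    calc (4 * 200 ^ 4 * 17 ^ 4 * k * m ^ 2) * k = 4 * 200 ^ 4 * 17 ^ 4 * (m * k) ^ 2 := by ring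
      _ ≤ 4 * 200 ^ 4 * 17 ^ 4 * (30 * g) ^ 2 := Nat.mul_le_mul_left _ h2
      _ = 900 * (4 * 200 ^ 4 * 17 ^ 4) * g ^ 2 := by ring
      _ ≤ d * k := hd
  exact Nat.le_of_mul_le_mul_right h3 hk0

/-- **The window of the missing values, for all dimensions.** There is an absolute constant `C` such
that for all `k ≥ 2` and `n ≥ 2`, with `g = g_k(n) = min 𝒟_k(n)`, every integer `d` with
`g ≤ d ≤ n (n - 1) / 2` which is not in `𝒟_k(n)` satisfies `g < d < g + C g² / k`, and, if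
`k ≥ 10 g`, also `d < g + g (g + 2) / ((k - 1 - g) log (k / (3 g)))`. -/
theorem result : ∃ C : ℝ, 0 < C ∧ ∀ k n d : ℕ, 2 ≤ k → 2 ≤ n →
    sInf (valueSet k n) ≤ d → d ≤ n.choose 2 → d ∉ valueSet k n →
    sInf (valueSet k n) < d ∧
    (d : ℝ) < ((sInf (valueSet k n) : ℕ) : ℝ) + C * ((sInf (valueSet k n) : ℕ) : ℝ) ^ 2 / k ∧
    (10 * sInf (valueSet k n) ≤ k → (d : ℝ) < ((sInf (valueSet k n) : ℕ) : ℝ) +
      ((sInf (valueSet k n) : ℕ) : ℝ) * (((sInf (valueSet k n) : ℕ) : ℝ) + 2) /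
        (((k : ℝ) - 1 - ((sInf (valueSet k n) : ℕ) : ℝ)) *
          Real.log ((k : ℝ) / (3 * ((sInf (valueSet k n) : ℕ) : ℝ))))) := by
  classical
  refine ⟨900 * ((4 * 200 ^ 4 * 17 ^ 4 : ℕ) : ℝ), by positivity, ?_⟩
  intro k n d hk hn hgd hdn hnot
  have hmax : n.choose 2 ∈ valueSet k n := by
    apply upper_range k n _ hk hn _ le_rfl
    have : n - 1 ≤ n.choose 2 := by
      rw [Nat.choose_two_right, Nat.le_div_iff_mul_le (by norm_num)]
      calc (n - 1) * 2 ≤ (n - 1) * n := Nat.mul_le_mul_left _ hn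
        _ = n * (n - 1) := by ring
    omega
  have hne : (valueSet k n).Nonempty := ⟨_, hmax⟩
  set g := sInf (valueSet k n) with hg
  have hgmem : g ∈ valueSet k n := Nat.sInf_mem hne
  have hg1 : 1 ≤ g := by
    rw [mem_valueSet_iff] at hgmem
    obtain ⟨S, hS1, hS2⟩ := hgmem
    have hcard : 1 < S.card := by omega
    obtain ⟨x, hx, y, hy, hxy⟩ := Finset.one_lt_card.mp hcard
    rw [← hS2, Nat.one_le_iff_ne_zero, Ne, Finset.card_eq_zero]
    intro he
    have : dist x y ∈ dset S := by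
      rw [mem_dset]
      exact ⟨x, hx, y, hy, hxy, rfl⟩
    rw [he] at this
    simp at this
  have hng : n ≤ (k + g).choose g := by
    obtain ⟨S, hS1, hS2⟩ := mem_valueSet_iff.mp hgmem
    have := card_le_sharp S
    rw [hS1, hS2] at this
    exact this
  have hlt : g < d := by
    rcases hgd.lt_or_eq with h | h
    · exact h
    · exact absurd (h ▸ hgmem) hnot
  have hkpos : (0 : ℝ) < k := by exact_mod_cast (by omega : 0 < k)
  have hnR : (1 : ℝ) ≤ n := by exact_mod_cast (by omega : 1 ≤ n)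
  have hpow1 : (1 : ℝ) ≤ (n : ℝ) ^ ((2 : ℝ) / k) := Real.one_le_rpow hnR (by positivity)
  set c : ℕ := 4 * 200 ^ 4 * 17 ^ 4 with hc
  have hc1 : 1 ≤ c := by rw [hc]; norm_num
  have hcR : (1 : ℝ) ≤ c := by exact_mod_cast hc1
  have hgR : (1 : ℝ) ≤ g := by exact_mod_cast hg1
  -- high dimension
  have hhigh : 10 * g ≤ k → (d : ℝ) < (g : ℝ) + (g : ℝ) * ((g : ℝ) + 2) /
      (((k : ℝ) - 1 - (g : ℝ)) * Real.log ((k : ℝ) / (3 * (g : ℝ)))) ∧
      1 ≤ Real.log ((k : ℝ) / (3 * (g : ℝ))) := by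
    intro hA
    have h10 : (10 : ℝ) * g ≤ k := by exact_mod_cast hA
    have hlog : 1 ≤ Real.log ((k : ℝ) / (3 * (g : ℝ))) := by
      have hq3 : 3 ≤ (k : ℝ) / (3 * (g : ℝ)) := by
        rw [le_div_iff₀ (by positivity)]
        linarith
      rw [Real.le_log_iff_exp_le (by linarith)]
      have := Real.exp_one_lt_d9
      linarith
    refine ⟨?_, hlog⟩
    by_contra hcon
    push Not at hcon
    apply hnot
    apply mem_of_finset hk hn hdn
    intro _
    refine case_a hg1 hA hng hlt ?_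
    have hpos : 0 < ((k : ℝ) - 1 - (g : ℝ)) * Real.log ((k : ℝ) / (3 * (g : ℝ))) :=
      mul_pos (by linarith) (by linarith)
    have h1 : (g : ℝ) * ((g : ℝ) + 2) /
      (((k : ℝ) - 1 - (g : ℝ)) * Real.log ((k : ℝ) / (3 * (g : ℝ)))) ≤ (d : ℝ) - g := by linarith
    rw [div_le_iff₀ hpos] at h1
    exact h1
  refine ⟨hlt, ?_, fun hA => (hhigh hA).1⟩
  · by_cases hA : 10 * g ≤ k
    · have h10 : (10 : ℝ) * g ≤ k := by exact_mod_cast hA
      obtain ⟨h1, hlog⟩ := hhigh hA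
      refine lt_of_lt_of_le h1 ?_
      have h2 : (8 : ℝ) / 10 * k ≤ ((k : ℝ) - 1 - (g : ℝ)) *
          Real.log ((k : ℝ) / (3 * (g : ℝ))) := by nlinarith
      have h3 : (g : ℝ) * ((g : ℝ) + 2) /
          (((k : ℝ) - 1 - (g : ℝ)) * Real.log ((k : ℝ) / (3 * (g : ℝ)))) ≤
          (3 * (g : ℝ) ^ 2) / ((8 : ℝ) / 10 * k) :=
        div_le_div₀ (by positivity) (by nlinarith) (by positivity) h2
      have h4 : (3 * (g : ℝ) ^ 2) / ((8 : ℝ) / 10 * k) = 15 / 4 * ((g : ℝ) ^ 2 / k) := by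
        field_simp
        ring
      have h5 : 15 / 4 * ((g : ℝ) ^ 2 / k) ≤ 900 * (c : ℝ) * ((g : ℝ) ^ 2 / k) :=
        mul_le_mul_of_nonneg_right (by linarith) (by positivity)
      rw [mul_div_assoc (900 * (c : ℝ))]
      linarith
    · by_contra hcon
      push Not at hcon
      apply hnot
      apply mem_of_finset hk hn hdn
      intro hdn'
      have hB : k ≤ 10 * g := by omega
      have h1 : 900 * (c : ℝ) * (g : ℝ) ^ 2 ≤ ((d : ℝ) - g) * k := by
        have h2 : 900 * (c : ℝ) * (g : ℝ) ^ 2 / k ≤ (d : ℝ) - g := by linarith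
        rw [div_le_iff₀ hkpos] at h2
        exact h2
      have h3 : ((900 * c * g ^ 2 : ℕ) : ℝ) ≤ ((d * k : ℕ) : ℝ) := by
        push_cast
        nlinarith
      refine case_b hk hB hng ?_ hdn'
      exact_mod_cast h3

end Pool.Agent.Results.MP_603301_co.UniformWindow
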